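import Pool.Agent.Helper17.SO.Stmts

set_option autoImplicit false

namespace Pool.Agent.Helper17.SO

theorem st_ROOT : ST_ROOT := by
  intro lam l hl hlam hlt R hR
  have hp2 : l ≠ 2 := by omega
  have hpr : l.Prime := hl.out
  have h2 : (2 : ZMod l) ≠ 0 := by
    intro h
    have h' : ((2 : ℕ) : ZMod l) = 0 := by simpa using h
    rw [ZMod.natCast_eq_zero_iff] at h'
    exact hp2 ((Nat.prime_dvd_prime_iff_eq hpr Nat.prime_two).1 h')
  have hlam0 : (lam : ZMod l) ≠ 0 := by
    intro h
    rw [ZMod.natCast_eq_zero_iff] at h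
    have := Nat.le_of_dvd (by omega) h
    omega
  have hJ1 := jacobiSym.legendreSym.to_jacobiSym l (1 - 4 * (lam : ℤ))
  have hJ2 := jacobiSym.legendreSym.to_jacobiSym l (lam : ℤ)
  refine ⟨?_, ?_, ?_⟩
  · have hc := legendreSym.card_sqrts l hp2 (1 - 4 * (lam : ℤ))
    rw [← hJ1, add_comm, ← hc]
    have : R.card = {x : ZMod l | x ^ 2 = ((1 - 4 * (lam : ℤ) : ℤ) : ZMod l)}.toFinset.card := by
      refine Finset.card_bij (fun r _ => 2 * r - 1) ?_ ?_ ?_
      · intro r hr
        have hr' := (hR r).1 hr
        rw [Set.mem_toFinset]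
        show (2 * r - 1) ^ 2 = ((1 - 4 * (lam : ℤ) : ℤ) : ZMod l)
        push_cast
        linear_combination 4 * hr'
      · intro r _ r' _ h
        have h' : 2 * r = 2 * r' := by linear_combination h
        exact mul_left_cancel₀ h2 h'
      · intro x hx
        rw [Set.mem_toFinset] at hx
        have hx' : x ^ 2 = ((1 - 4 * (lam : ℤ) : ℤ) : ZMod l) := hx
        push_cast at hx'
        refine ⟨(x + 1) / 2, ?_, ?_⟩
        · rw [hR]
          field_simp
          linear_combination hx'
        · field_simp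
          ring
    exact_mod_cast this
  · intro h
    have h' := (hR _).1 h
    have : (lam : ZMod l) ^ 2 = 0 := by linear_combination h'
    exact hlam0 (pow_eq_zero_iff (two_ne_zero) |>.1 this)
  · rintro ⟨_, h1, h3⟩ m hm
    rw [← hJ1] at h1
    rw [← hJ2] at h3
    have hm0 : (m : ZMod l) ≠ 0 := by
      intro h
      rw [ZMod.natCast_eq_zero_iff] at h
      exact hm h
    have hsq : IsSquare ((1 - 4 * (lam : ℤ) : ℤ) : ZMod l) := by
      have h0 : ((1 - 4 * (lam : ℤ) : ℤ) : ZMod l) ≠ 0 := by
        intro h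
        rw [(legendreSym.eq_zero_iff l _).2 h] at h1
        exact absurd h1 (by norm_num)
      exact (legendreSym.eq_one_iff l h0).1 h1
    obtain ⟨s, hs⟩ := hsq
    push_cast at hs
    have hns : ¬ IsSquare ((lam : ℤ) : ZMod l) := (legendreSym.eq_neg_one_iff l).1 h3
    by_contra hcon
    push Not at hcon
    have hr1 : (1 + s) / 2 ∈ R := by
      rw [hR]
      field_simp
      linear_combination -hs
    have hr2 : (1 - s) / 2 ∈ R := by
      rw [hR]
      field_simp
      linear_combination -hs
    obtain ⟨a, ha⟩ := hcon _ hr1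
    obtain ⟨b, hb⟩ := hcon _ hr2
    apply hns
    refine ⟨a * b / m, ?_⟩
    have hab : (a * b) * (a * b) = (lam : ZMod l) * m * m := by
      have h4 : (a * b) * (a * b) = (a * a) * (b * b) := by ring
      rw [h4, ← ha, ← hb]
      field_simp
      linear_combination hs
    push_cast
    field_simp
    linear_combination -hab

end Pool.Agent.Helper17.SO
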